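import Pool.Agent.H247S.LemT

set_option autoImplicit false

namespace Pool.Agent.H247S

set_option linter.all false

open SemidirectProduct

variable {M : Type*} [AddCommGroup M] [Module ℚ M]

/-- commuting involutions have a common eigenvector -/
lemma common_eig {A : Type*} (T : A → (M →ₗ[ℚ] M)) (hT2 : ∀ a m, T a (T a m) = m)
    (hTc : ∀ a b m, T a (T b m) = T b (T a m)) (s : Finset A) {m₀ : M} (h0 : m₀ ≠ 0) :
    ∃ m : M, m ≠ 0 ∧ ∀ a ∈ s, T a m = m ∨ T a m = - m := by
  classical
  induction s using Finset.induction with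
  | empty => exact ⟨m₀, h0, fun a ha => absurd ha (Finset.notMem_empty a)⟩
  | insert a s _ ih =>
    obtain ⟨m, hm, hs⟩ := ih
    by_cases h1 : m + T a m = 0
    · refine ⟨m, hm, fun b hb => ?_⟩
      rcases Finset.mem_insert.mp hb with rfl | hb
      · exact Or.inr (neg_eq_of_add_eq_zero_right h1).symm
      · exact hs b hb
    · refine ⟨m + T a m, h1, fun b hb => ?_⟩
      rcases Finset.mem_insert.mp hb with rfl | hb
      · left; rw [map_add, hT2, add_comm]
      · rcases hs b hb with h2 | h2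
        · left; rw [map_add, hTc, h2]
        · right; rw [map_add, hTc, h2, map_neg, neg_add]

variable {A H : Type*} [CommGroup A] [Group H] [Finite A] {φ : H →* MulAut A}
  (ρ : A ⋊[φ] H →* Module.End ℚ M)

/-- the weight space -/
def Wt (l : A →* ℚ) : Submodule ℚ M where
  carrier := {m | ∀ a, ρ (inl a) m = l a • m}
  zero_mem' := fun a => by rw [map_zero, smul_zero]
  add_mem' := fun {x y} hx hy a => by rw [map_add, hx a, hy a, smul_add]
  smul_mem' := fun c x hx a => by rw [map_smul, hx a, smul_comm]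

/-- the stabiliser of a character -/
def St (φ : H →* MulAut A) (l : A →* ℚ) : Subgroup H where
  carrier := {h | ∀ a, l (φ h a) = l a}
  one_mem' := fun a => by rw [map_one]; rfl
  mul_mem' := fun {x y} hx hy a => by
    rw [map_mul]
    show l (φ x (φ y a)) = l a
    rw [hx, hy]
  inv_mem' := fun {x} hx a => by
    have := hx (φ x⁻¹ a)
    rw [← this]
    show l ((φ x * φ x⁻¹) a) = l a
    rw [← map_mul, mul_inv_cancel, map_one]
    rfl

theorem exists_wt (hA2 : ∀ a : A, a * a = 1) {m₀ : M} (h0 : m₀ ≠ 0) :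
    ∃ l : A →* ℚ, (∀ a, l a = 1 ∨ l a = -1) ∧ ∃ m ∈ Wt ρ l, m ≠ 0 := by
  classical
  haveI := Fintype.ofFinite A
  have rm : ∀ a b w, ρ (a * b) w = ρ a (ρ b w) := fun a b w => by rw [map_mul]; rfl
  have r1 : ∀ w, ρ 1 w = w := fun w => by rw [map_one]; rfl
  obtain ⟨m, hm, hs⟩ := common_eig (fun a : A => ρ (inl a)) (fun a m => by
    rw [← rm, ← map_mul, hA2, map_one, r1]) (fun a b m => by
    rw [← rm, ← rm, ← map_mul, ← map_mul, mul_comm]) Finset.univ h0
  have hs' : ∀ a : A, ∃ q : ℚ, (q = 1 ∨ q = -1) ∧ ρ (inl a) m = q • m := by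
    intro a
    rcases hs a (Finset.mem_univ a) with h | h
    · exact ⟨1, Or.inl rfl, by rw [h, one_smul]⟩
    · exact ⟨-1, Or.inr rfl, by rw [h, neg_smul, one_smul]⟩
  choose l hl1 hl2 using hs'
  refine ⟨{ toFun := l, map_one' := ?_, map_mul' := ?_ }, hl1, m, hl2, hm⟩
  · have := hl2 1
    rw [map_one, r1] at this
    have h2 : (l 1 - 1) • m = 0 := by rw [sub_smul, ← this, one_smul, sub_self]
    exact sub_eq_zero.mp ((smul_eq_zero.mp h2).resolve_right hm)
  · intro a b
    have := hl2 (a * b)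
    rw [map_mul, rm, hl2 b, map_smul, hl2 a, smul_smul] at this
    have h2 : (l (a * b) - l a * l b) • m = 0 := by
      rw [sub_smul, ← this, mul_comm (l a), sub_self]
    exact sub_eq_zero.mp ((smul_eq_zero.mp h2).resolve_right hm)

theorem clif (hirr : Irr (fun g => ρ g) Set.univ ⊤) (l : A →* ℚ) (hl : ∀ a, l a = 1 ∨ l a = -1)
    (hne : ∃ m ∈ Wt ρ l, m ≠ 0) :
    Irr (fun h => ρ (inr h)) (St φ l : Set H) (Wt ρ l) := by
  classical
  haveI := Fintype.ofFinite A
  have rm : ∀ a b w, ρ (a * b) w = ρ a (ρ b w) := fun a b w => by rw [map_mul]; rfl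
  have r1 : ∀ w, ρ 1 w = w := fun w => by rw [map_one]; rfl
  have hll : ∀ a, l a * l a = 1 := fun a => by
    rcases hl a with h | h <;> rw [h] <;> norm_num
  have hcard : (Fintype.card A : ℚ) ≠ 0 := by
    exact_mod_cast Fintype.card_ne_zero
  have hconj : ∀ (h : H) (a : A) (w : M), ρ (inl a) (ρ (inr h) w) = ρ (inr h) (ρ (inl (φ h⁻¹ a)) w) := by
    intro h a w
    rw [← rm, ← rm]
    congr 2
    have := inl_aut (φ := φ) h (φ h⁻¹ a)
    have e1 : φ h (φ h⁻¹ a) = a := by
      show (φ h * φ h⁻¹) a = a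
      rw [← map_mul, mul_inv_cancel, map_one]; rfl
    rw [e1] at this
    rw [this, mul_assoc, mul_assoc, ← map_mul, inv_mul_cancel, map_one, mul_one]
  refine ⟨?_, ?_, ?_⟩
  · obtain ⟨m, hm, h0⟩ := hne
    intro hb
    rw [hb] at hm
    exact h0 ((Submodule.mem_bot ℚ).mp hm)
  · intro h hh w hw a
    show ρ (inl a) (ρ (inr h) w) = l a • ρ (inr h) w
    rw [hconj, hw, map_smul]
    congr 1
    exact (St φ l).inv_mem hh a
  · intro W' hW' hne' hst
    refine le_antisymm hW' ?_
    let X : Submodule ℚ M := Submodule.span ℚ {x | ∃ h : H, ∃ w ∈ W', x = ρ (inr h) w}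
    have hX : X = ⊤ := by
      apply hirr.2.2 X le_top
      · intro hb
        obtain ⟨w, hw, h0⟩ := Submodule.exists_mem_ne_zero_of_ne_bot hne'
        have : w ∈ X := Submodule.subset_span ⟨1, w, hw, by rw [map_one, r1]⟩
        rw [hb] at this
        exact h0 ((Submodule.mem_bot ℚ).mp this)
      · intro g _
        apply stab_span (ρ g)
        rintro v ⟨h, w, hw, rfl⟩
        have hg : g = inl g.left * inr g.right := (inl_left_mul_inr_right g).symm
        have e1 : ρ g (ρ (inr h) w) = l (φ (g.right * h)⁻¹ g.left) • ρ (inr (g.right * h)) w := by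
          conv_lhs => rw [hg]
          rw [rm, ← rm (inr g.right), ← map_mul, hconj, hW' hw, map_smul]
        rw [e1]
        exact Submodule.smul_mem _ _ (Submodule.subset_span ⟨_, w, hw, rfl⟩)
    let π : M →ₗ[ℚ] M := (Fintype.card A : ℚ)⁻¹ • ∑ a : A, l a • (ρ (inl a) : M →ₗ[ℚ] M)
    have hπ : ∀ m, π m = (Fintype.card A : ℚ)⁻¹ • ∑ a : A, l a • ρ (inl a) m := by
      intro m
      simp only [π, LinearMap.smul_apply, LinearMap.sum_apply]
    have hπX : ∀ x ∈ X, π x ∈ W' := by
      have : X ≤ W'.comap π := by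
        apply Submodule.span_le.mpr
        rintro _ ⟨h, w, hw, rfl⟩
        show π (ρ (inr h) w) ∈ W'
        rw [hπ]
        have e1 : ∀ a : A, l a • ρ (inl a) (ρ (inr h) w) = (l a * l (φ h⁻¹ a)) • ρ (inr h) w := by
          intro a
          rw [hconj, hW' hw, map_smul, smul_smul]
        simp only [e1]
        rw [← Finset.sum_smul]
        by_cases hh : h ∈ St φ l
        · exact W'.smul_mem _ (W'.smul_mem _ (hst h hh w hw))
        · let χ : A →* ℚ := l * (l.comp (φ h⁻¹).toMonoidHom)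
          have hχ : χ ≠ 1 := by
            intro h1
            apply hh
            have h2 : h⁻¹ ∈ St φ l := by
              intro a
              have h3 : l a * l (φ h⁻¹ a) = 1 := DFunLike.congr_fun h1 a
              have h4 := hll a
              rcases hl a with h5 | h5 <;> rw [h5] at h3 ⊢ <;> linarith
            have := (St φ l).inv_mem h2
            rwa [inv_inv] at this
          have h3 := sum_hom_units_eq_zero χ hχ
          have h4 : ∑ a : A, (l a * l (φ h⁻¹ a)) = 0 := h3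
          rw [h4, zero_smul, smul_zero]
          exact W'.zero_mem
      exact fun x hx => this hx
    intro y hy
    have h1 : π y = y := by
      rw [hπ]
      have e1 : ∀ a : A, l a • ρ (inl a) y = y := by
        intro a
        rw [hy a, smul_smul, hll, one_smul]
      simp only [e1, Finset.sum_const, Finset.card_univ]
      rw [← Nat.cast_smul_eq_nsmul ℚ, smul_smul, inv_mul_cancel₀ hcard, one_smul]
    rw [← h1]
    exact hπX y (hX ▸ Submodule.mem_top)

/-- the conclusion on endomorphisms -/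
theorem scalar_of (hA2 : ∀ a : A, a * a = 1) (hirr : Irr (fun g => ρ g) Set.univ ⊤)
    (hE : ∀ l : A →* ℚ, (∀ a, l a = 1 ∨ l a = -1) →
      ∀ (W : Submodule ℚ M), Irr (fun h => ρ (inr h)) (St φ l : Set H) W →
      ∀ f : M →ₗ[ℚ] M, (∀ g ∈ St φ l, ∀ w ∈ W, f (ρ (inr g) w) = ρ (inr g) (f w)) →
        (∀ w ∈ W, f w ∈ W) → ∃ q : ℚ, ∀ w ∈ W, f w = q • w)
    (f : M →ₗ[ℚ] M) (hf : ∀ g m, f (ρ g m) = ρ g (f m)) : ∃ q : ℚ, ∀ m, f m = q • m := by
  obtain ⟨m₀, _, h0⟩ := hirr.exists_ne
  obtain ⟨l, hl, hne⟩ := exists_wt ρ hA2 h0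
  obtain ⟨q, hq⟩ := hE l hl (Wt ρ l) (clif ρ hirr l hl hne) f (fun g _ w _ => hf _ w) (by
    intro w hw a
    rw [← hf, hw a, map_smul])
  obtain ⟨m, hm, hm0⟩ := hne
  exact ⟨q, fun w => hirr.scalar f (fun g _ w _ => hf g w) q Submodule.mem_top (hq m hm) hm0 w
    Submodule.mem_top⟩

end Pool.Agent.H247S
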