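import Pool.Agent.H247S.Split

set_option autoImplicit false

namespace Pool.Agent.H247S

set_option linter.all false

/-- the group `S₃ × Dih(C₄ × C₄)` -/
@[ext]
structure Hd where
  c : ZMod 3
  t : Bool
  a : ZMod 4
  b : ZMod 4
  e : Bool
deriving DecidableEq, Fintype

namespace Hd

/-- sign -/
def sg {n : ℕ} (t : Bool) (x : ZMod n) : ZMod n := if t then -x else x

instance : Mul Hd := ⟨fun x y => ⟨x.c + sg x.t y.c, xor x.t y.t, x.a + sg x.e y.a,
  x.b + sg x.e y.b, xor x.e y.e⟩⟩

instance : One Hd := ⟨⟨0, false, 0, 0, false⟩⟩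

instance : Inv Hd := ⟨fun x => ⟨- sg x.t x.c, x.t, - sg x.e x.a, - sg x.e x.b, x.e⟩⟩

lemma mul_def (x y : Hd) : x * y = ⟨x.c + sg x.t y.c, xor x.t y.t, x.a + sg x.e y.a,
  x.b + sg x.e y.b, xor x.e y.e⟩ := rfl

lemma one_def : (1 : Hd) = ⟨0, false, 0, 0, false⟩ := rfl

lemma inv_def (x : Hd) : x⁻¹ = ⟨- sg x.t x.c, x.t, - sg x.e x.a, - sg x.e x.b, x.e⟩ := rfl

instance : Group Hd := Group.ofLeftAxioms
  (by
    rintro ⟨c, t, a, b, e⟩ ⟨c', t', a', b', e'⟩ ⟨c'', t'', a'', b'', e''⟩
    simp only [mul_def]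
    cases t <;> cases t' <;> cases e <;> cases e' <;> simp [sg] <;> refine ⟨?_, ?_, ?_⟩ <;> ring)
  (by
    rintro ⟨c, t, a, b, e⟩
    simp only [mul_def, one_def]
    simp [sg])
  (by
    rintro ⟨c, t, a, b, e⟩
    simp only [mul_def, one_def, inv_def]
    cases t <;> cases e <;> simp [sg])

end Hd

/-- the module -/
abbrev VV : Type := Matrix (Fin 2) (Fin 3) (ZMod 2)

/-- the matrices of `S₃` -/
def PM (c : ZMod 3) (t : Bool) : Matrix (Fin 2) (Fin 2) (ZMod 2) :=
  (if c = 0 then !![1, 0; 0, 1] else if c = 1 then !![0, 1; 1, 1] else !![1, 1; 1, 0])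
    * (if t then !![0, 1; 1, 0] else !![1, 0; 0, 1])

/-- the matrices of the dihedral group of order eight -/
def QM (b : ZMod 4) (e : Bool) : Matrix (Fin 3) (Fin 3) (ZMod 2) :=
  (if b = 0 then !![1, 0, 0; 0, 1, 0; 0, 0, 1] else if b = 1 then !![0, 0, 1; 1, 0, 1; 0, 1, 1]
    else if b = 2 then !![0, 1, 1; 0, 1, 0; 1, 1, 0] else !![1, 1, 0; 1, 0, 1; 1, 0, 0])
    * (if e then !![0, 1, 1; 1, 0, 1; 0, 0, 1] else !![1, 0, 0; 0, 1, 0; 0, 0, 1])

lemma PM_one : PM 0 false = 1 := by decide +kernel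

lemma QM_one : QM 0 false = 1 := by decide +kernel

lemma PM_mul : ∀ (c : ZMod 3) (t : Bool) (c' : ZMod 3) (t' : Bool),
    PM (c + Hd.sg t c') (xor t t') = PM c t * PM c' t' := by decide +kernel

lemma QM_mul : ∀ (b : ZMod 4) (e : Bool) (b' : ZMod 4) (e' : Bool),
    QM (b + Hd.sg e b') (xor e e') = QM b e * QM b' e' := by decide +kernel

/-- the action -/
def act (h : Hd) (v : VV) : VV := PM h.c h.t * v * (QM h.b h.e).transpose

lemma act_one (v : VV) : act 1 v = v := by
  unfold act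
  rw [Hd.one_def, PM_one, QM_one, Matrix.one_mul, Matrix.transpose_one, Matrix.mul_one]

lemma act_mul (h k : Hd) (v : VV) : act (h * k) v = act h (act k v) := by
  unfold act
  rw [Hd.mul_def]
  simp only
  rw [PM_mul, QM_mul, Matrix.transpose_mul]
  simp only [Matrix.mul_assoc]

lemma act_add (h : Hd) (v w : VV) : act h (v + w) = act h v + act h w := by
  unfold act
  rw [Matrix.mul_add, Matrix.add_mul]

/-- the action as a homomorphism -/
def phi : Hd →* MulAut (Multiplicative VV) where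
  toFun h :=
    { toFun := fun v => Multiplicative.ofAdd (act h v.toAdd)
      invFun := fun v => Multiplicative.ofAdd (act h⁻¹ v.toAdd)
      left_inv := fun v => by
        show Multiplicative.ofAdd (act h⁻¹ (act h v.toAdd)) = v
        rw [← act_mul, inv_mul_cancel, act_one]; rfl
      right_inv := fun v => by
        show Multiplicative.ofAdd (act h (act h⁻¹ v.toAdd)) = v
        rw [← act_mul, mul_inv_cancel, act_one]; rfl
      map_mul' := fun v w => by
        show Multiplicative.ofAdd (act h (v.toAdd + w.toAdd)) = _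
        rw [act_add]; rfl }
  map_one' := by
    apply MulEquiv.ext
    intro v
    show Multiplicative.ofAdd (act 1 v.toAdd) = v
    rw [act_one]; rfl
  map_mul' h k := by
    apply MulEquiv.ext
    intro v
    show Multiplicative.ofAdd (act (h * k) v.toAdd) = Multiplicative.ofAdd (act h (act k v.toAdd))
    rw [act_mul]

/-- the group of order 12288 -/
abbrev GG : Type := Multiplicative VV ⋊[phi] Hd

/-- the dual action fixes every vector for some reflection -/
lemma dual_fix : ∀ x0 x1 x2 x3 x4 x5 : ZMod 2, ∃ (c : ZMod 3) (t : Bool) (b : ZMod 4),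
    (PM c t).transpose * !![x0, x1, x2; x3, x4, x5] * QM b true = !![x0, x1, x2; x3, x4, x5] := by
  decide +kernel

/-- a vector -/
def a0 : VV := !![0, 0, 1; 0, 1, 1]

lemma no_fix : ∀ (t : Bool) (b : ZMod 4), PM 0 t * a0 * (QM b true).transpose ≠ a0 := by
  decide +kernel

lemma PM_sum : ∀ c : ZMod 3, c ≠ 0 → 1 + PM c false + PM c false * PM c false = 0 := by
  decide +kernel

end Pool.Agent.H247S
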