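import Pool.Agent.H247S.Rep

set_option autoImplicit false

namespace Pool.Agent.H247S

set_option linter.all false

variable {M : Type*} [AddCommGroup M] [Module ℚ M]

lemma stab_span (T : M →ₗ[ℚ] M) (S : Set M) (h : ∀ v ∈ S, T v ∈ Submodule.span ℚ S) :
    ∀ w ∈ Submodule.span ℚ S, T w ∈ Submodule.span ℚ S := by
  intro w hw
  have h1 : Submodule.span ℚ S ≤ (Submodule.span ℚ S).comap T := Submodule.span_le.mpr h
  exact h1 hw

theorem lemT {H : Type*} [Group H] (ρ : H →* Module.End ℚ M) (Γ : Subgroup H)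
    (W : Submodule ℚ M) (hW : Irr (fun g => ρ g) (Γ : Set H) W) (Y : Subgroup H) (hYΓ : Y ≤ Γ)
    (c t s : H) (hc : c ∈ Γ) (ht : t ∈ Γ) (hs : s ∈ Γ)
    (hs2 : s * s = 1) (ht2 : t * t = 1) (hc3 : c * c * c = 1) (hst : s * t = t * s)
    (hsc : s * c = c * s) (htc : t * c * t * c = 1)
    (hYs : ∀ y ∈ Y, s * y * s * y = 1) (hY4 : ∀ y ∈ Y, y * y * (y * y) = 1)
    (hYc : ∀ y ∈ Y, c * y = y * c) (hYt : ∀ y ∈ Y, t * y = y * t)
    (hgen : ∀ g ∈ Γ, ∃ i j k : ℕ, ∃ y ∈ Y, g = c ^ i * t ^ j * y * s ^ k)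
    (f : M →ₗ[ℚ] M) (hf : ∀ g ∈ Γ, ∀ w ∈ W, f (ρ g w) = ρ g (f w)) (hfW : ∀ w ∈ W, f w ∈ W) :
    ∃ q : ℚ, ∀ w ∈ W, f w = q • w := by
  have rm : ∀ a b w, ρ (a * b) w = ρ a (ρ b w) := fun a b w => by rw [map_mul]; rfl
  have r1 : ∀ w, ρ 1 w = w := fun w => by rw [map_one]; rfl
  have hWs : ∀ g ∈ Γ, ∀ w ∈ W, ρ g w ∈ W := hW.2.1
  have sys : ∀ y ∈ Y, s * y * s = y⁻¹ := fun y hy => eq_inv_of_mul_eq_one_left (hYs y hy)
  have ys : ∀ y ∈ Y, y * s = s * y⁻¹ := by
    intro y hy
    rw [← sys y hy]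
    calc y * s = (s * s) * y * s := by rw [hs2, one_mul]
      _ = s * (s * y * s) := by simp only [mul_assoc]
  have hcomm : ∀ y ∈ Y, ∀ y' ∈ Y, y * y' = y' * y := by
    intro y hy y' hy'
    have h1 : s * (y * y') * s = y⁻¹ * y'⁻¹ := by
      rw [← sys y hy, ← sys y' hy']
      calc s * (y * y') * s = s * y * (s * s) * y' * s := by rw [hs2, mul_one]; simp only [mul_assoc]
        _ = s * y * s * (s * y' * s) := by simp only [mul_assoc]
    have h2 := sys (y * y') (Y.mul_mem hy hy')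
    rw [h1] at h2
    have h3 := congrArg (·⁻¹) h2
    simp only [mul_inv_rev, inv_inv] at h3
    exact h3.symm
  -- commutation with everything follows from commutation with generators
  have hall : ∀ (S : Submonoid H), c ∈ S → t ∈ S → s ∈ S → (∀ y ∈ Y, y ∈ S) → ∀ g ∈ Γ, g ∈ S := by
    intro S h1 h2 h3 h4 g hg
    obtain ⟨i, j, k, y, hy, rfl⟩ := hgen g hg
    exact S.mul_mem (S.mul_mem (S.mul_mem (S.pow_mem h1 i) (S.pow_mem h2 j)) (h4 y hy))
      (S.pow_mem h3 k)
  -- trichotomy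
  have htri : ∀ y ∈ Y, (∀ w ∈ W, ρ y w = w) ∨ (∀ w ∈ W, ρ y w = - w) ∨
      (∀ w ∈ W, ρ y (ρ y w) = - w) := by
    intro y hy
    have hyΓ := hYΓ hy
    have hyy : ∀ g ∈ Γ, (y * y) * g = g * (y * y) := by
      intro g hg
      have := hall (Submonoid.centralizer {y * y}) (by
          rw [Submonoid.mem_centralizer_iff]
          rintro _ rfl
          rw [mul_assoc, ← hYc y hy, ← mul_assoc, ← hYc y hy, mul_assoc]) (by
          rw [Submonoid.mem_centralizer_iff]
          rintro _ rfl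
          rw [mul_assoc, ← hYt y hy, ← mul_assoc, ← hYt y hy, mul_assoc]) (by
          rw [Submonoid.mem_centralizer_iff]
          rintro _ rfl
          rw [ys (y * y) (Y.mul_mem hy hy)]
          have : (y * y)⁻¹ = y * y := inv_eq_of_mul_eq_one_left (hY4 y hy)
          rw [this]) (by
          intro y' hy'
          rw [Submonoid.mem_centralizer_iff]
          rintro _ rfl
          rw [hcomm (y * y) (Y.mul_mem hy hy) y' hy']) g hg
      rw [Submonoid.mem_centralizer_iff] at this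
      exact this _ rfl
    rcases hW.sign (ρ (y * y)) (hWs _ (Γ.mul_mem hyΓ hyΓ)) (by
        intro w _
        show ρ (y * y) (ρ (y * y) w) = w
        rw [← rm, hY4 y hy, r1]) (by
        intro g hg w _
        show ρ (y * y) (ρ g w) = ρ g (ρ (y * y) w)
        rw [← rm, ← rm, hyy g hg]) with h1 | h1
    · have hinv : ∀ w ∈ W, ρ y⁻¹ w = ρ y w := by
        intro w hw
        have h2 := h1 w hw
        calc ρ y⁻¹ w = ρ y⁻¹ (ρ (y * y) w) := by rw [h2]
          _ = ρ y w := by rw [← rm, inv_mul_cancel_left]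
      have hcs : ∀ g ∈ Γ, g ∈ Γ ∧ ∀ w ∈ W, ρ y (ρ g w) = ρ g (ρ y w) := by
        intro g hg
        let S : Submonoid H :=
          { carrier := {g | g ∈ Γ ∧ ∀ w ∈ W, ρ y (ρ g w) = ρ g (ρ y w)}
            one_mem' := ⟨Γ.one_mem, fun w _ => by rw [r1, r1]⟩
            mul_mem' := by
              rintro a b ⟨ha, ha'⟩ ⟨hb, hb'⟩
              refine ⟨Γ.mul_mem ha hb, fun w hw => ?_⟩
              rw [rm, rm, ha' _ (hWs b hb w hw), hb' w hw] }
        exact hall S ⟨hc, fun w _ => by rw [← rm, ← rm, hYc y hy]⟩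
          ⟨ht, fun w _ => by rw [← rm, ← rm, hYt y hy]⟩
          ⟨hs, fun w hw => by rw [← rm, ys y hy, rm, hinv w hw]⟩
          (fun y' hy' => ⟨hYΓ hy', fun w _ => by rw [← rm, ← rm, hcomm y hy y' hy']⟩) g hg
      rcases hW.sign (ρ y) (hWs y hyΓ) (by
          intro w hw
          show ρ y (ρ y w) = w
          rw [← rm]; exact h1 w hw) (fun g hg w hw => (hcs g hg).2 w hw) with h2 | h2
      · exact Or.inl h2
      · exact Or.inr (Or.inl h2)
    · refine Or.inr (Or.inr fun w hw => ?_)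
      rw [← rm]; exact h1 w hw
  -- an element y0 controlling Y
  obtain ⟨y0, hy0, σ, hσ, hinv0, hYy0⟩ : ∃ y0 ∈ Y, ∃ σ : ℚ, (σ = -1 ∨ y0 = 1) ∧
      (∀ w ∈ W, ρ y0⁻¹ w = σ • ρ y0 w) ∧ (∀ y ∈ Y, ∃ a b : ℚ, ∀ w ∈ W, ρ y w = a • w + b • ρ y0 w) := by
    by_cases hB : ∃ y0 ∈ Y, ∀ w ∈ W, ρ y0 (ρ y0 w) = - w
    · obtain ⟨y0, hy0, h0⟩ := hB
      refine ⟨y0, hy0, -1, Or.inl rfl, ?_, ?_⟩
      · intro w hw
        have h1 : w = - ρ y0 (ρ y0 w) := by rw [h0 w hw, neg_neg]
        calc ρ y0⁻¹ w = ρ y0⁻¹ (- ρ y0 (ρ y0 w)) := by rw [← h1]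
          _ = - ρ y0 w := by rw [map_neg, ← rm, inv_mul_cancel, r1]
          _ = _ := by rw [neg_smul, one_smul]
      · intro y hy
        rcases htri y hy with h1 | h1 | h1
        · exact ⟨1, 0, fun w hw => by rw [h1 w hw]; simp⟩
        · exact ⟨-1, 0, fun w hw => by rw [h1 w hw]; simp⟩
        · have hyy0 : ∀ w ∈ W, ρ (y0 * y) (ρ (y0 * y) w) = w := by
            intro w hw
            have e1 : (y0 * y) * (y0 * y) = (y0 * y0) * (y * y) := by
              rw [mul_assoc, ← mul_assoc y y0 y, hcomm y hy y0 hy0]; simp only [mul_assoc]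
            rw [← rm, e1, rm, rm, rm, h1 w hw, map_neg, map_neg, h0 w hw, neg_neg]
          obtain ⟨w1, hw1, hw10⟩ := hW.exists_ne
          have key : ∀ w ∈ W, ρ y0 (ρ y w) = w ∨ True := fun _ _ => Or.inr trivial
          rcases htri (y0 * y) (Y.mul_mem hy0 hy) with h2 | h2 | h2
          · refine ⟨0, -1, fun w hw => ?_⟩
            have h3 := h2 w hw
            rw [rm] at h3
            have h4 : ρ y0 (ρ y0 (ρ y w)) = ρ y0 w := by rw [h3]
            rw [h0 _ (hWs y (hYΓ hy) w hw)] at h4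
            rw [zero_smul, zero_add, neg_smul, one_smul, ← h4, neg_neg]
          · refine ⟨0, 1, fun w hw => ?_⟩
            have h3 := h2 w hw
            rw [rm] at h3
            have h4 : ρ y0 (ρ y0 (ρ y w)) = ρ y0 (- w) := by rw [h3]
            rw [h0 _ (hWs y (hYΓ hy) w hw), map_neg, neg_inj] at h4
            rw [zero_smul, zero_add, one_smul, h4]
          · exfalso
            have h3 := h2 w1 hw1
            rw [hyy0 w1 hw1] at h3
            have h4 : (2 : ℚ) • w1 = 0 := by rw [two_smul]; nth_rewrite 1 [h3]; simp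
            exact hw10 ((smul_eq_zero.mp h4).resolve_left (by norm_num))
    · refine ⟨1, Y.one_mem, 1, Or.inr rfl, ?_, ?_⟩
      · intro w _
        rw [inv_one, r1, one_smul]
      · intro y hy
        rcases htri y hy with h1 | h1 | h1
        · exact ⟨1, 0, fun w hw => by rw [h1 w hw]; simp⟩
        · exact ⟨-1, 0, fun w hw => by rw [h1 w hw]; simp⟩
        · exact absurd ⟨y, hy, h1⟩ hB
  -- the square of c
  have hcd : ∃ a b : ℚ, ∀ w ∈ W, ρ c (ρ c w) = a • w + b • ρ c w := by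
    by_cases h : ∀ w ∈ W, w + ρ c w + ρ c (ρ c w) = 0
    · refine ⟨-1, -1, fun w hw => ?_⟩
      have := h w hw
      rw [neg_smul, neg_smul, one_smul, one_smul]
      rw [← sub_eq_zero]
      rw [← this]; abel
    · push Not at h
      obtain ⟨w, hw, h0⟩ := h
      refine ⟨1, 0, ?_⟩
      have hfix : ρ c (w + ρ c w + ρ c (ρ c w)) = w + ρ c w + ρ c (ρ c w) := by
        have e1 : ρ c (ρ c (ρ c w)) = w := by rw [← rm, ← rm, hc3, r1]
        rw [map_add, map_add, e1]; abel
      have hmem : w + ρ c w + ρ c (ρ c w) ∈ W :=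
        W.add_mem (W.add_mem hw (hWs c hc w hw)) (hWs c hc _ (hWs c hc w hw))
      have hcK : ∀ w ∈ W, w ∈ LinearMap.ker (ρ c - LinearMap.id) := by
        apply hW.all (LinearMap.ker (ρ c - LinearMap.id)) _ hmem _ h0
        · intro g hg w hw hwk
          have hst : ∀ g ∈ Γ, g ∈ Γ ∧ ∀ w ∈ W, ρ c w = w → ρ c (ρ g w) = ρ g w := by
            intro g hg
            let S : Submonoid H :=
              { carrier := {g | g ∈ Γ ∧ ∀ w ∈ W, ρ c w = w → ρ c (ρ g w) = ρ g w}
                one_mem' := ⟨Γ.one_mem, fun w _ h => by rw [r1, h]⟩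
                mul_mem' := by
                  rintro a b ⟨ha, ha'⟩ ⟨hb, hb'⟩
                  refine ⟨Γ.mul_mem ha hb, fun w hw h => ?_⟩
                  rw [rm, ha' _ (hWs b hb w hw) (hb' w hw h)] }
            apply hall S _ _ _ _ g hg
            · exact ⟨hc, fun w _ h => by rw [h, h]⟩
            · refine ⟨ht, fun w _ h => ?_⟩
              have e1 : t * c * t = c⁻¹ := eq_inv_of_mul_eq_one_left htc
              have e2 : c * t = t * c⁻¹ := by
                rw [← e1]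
                calc c * t = (t * t) * c * t := by rw [ht2, one_mul]
                  _ = t * (t * c * t) := by simp only [mul_assoc]
              rw [← rm, e2, rm]
              have e3 : ρ c⁻¹ w = w := by
                calc ρ c⁻¹ w = ρ c⁻¹ (ρ c w) := by rw [h]
                  _ = w := by rw [← rm, inv_mul_cancel, r1]
              rw [e3]
            · exact ⟨hs, fun w _ h => by rw [← rm, ← hsc, rm, h]⟩
            · exact fun y hy => ⟨hYΓ hy, fun w _ h => by rw [← rm, hYc y hy, rm, h]⟩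
          rw [LinearMap.mem_ker, LinearMap.sub_apply, LinearMap.id_apply, sub_eq_zero] at hwk ⊢
          exact (hst g hg).2 w hw hwk
        · rw [LinearMap.mem_ker, LinearMap.sub_apply, LinearMap.id_apply, sub_eq_zero, hfix]
      intro w hw
      have h1 : ρ c w = w := by
        have := hcK w hw
        rwa [LinearMap.mem_ker, LinearMap.sub_apply, LinearMap.id_apply, sub_eq_zero] at this
      rw [h1, h1, one_smul, zero_smul, add_zero]
  obtain ⟨ca, cb, hcd⟩ := hcd
  -- common eigenvector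
  obtain ⟨w, hw, hw0⟩ := hW.exists_ne
  obtain ⟨ε, hε, h10, h1e⟩ := exists_eig W (ρ s) (hWs s hs) (fun w _ => by
    rw [← rm, hs2, r1]) hw hw0
  have hw1W : w + ε • ρ s w ∈ W := W.add_mem hw (W.smul_mem ε (hWs s hs w hw))
  generalize w + ε • ρ s w = w1 at h10 h1e hw1W
  obtain ⟨δ, hδ, h20, h2e⟩ := exists_eig W (ρ t) (hWs t ht) (fun w _ => by
    rw [← rm, ht2, r1]) hw1W h10
  have hw2W : w1 + δ • ρ t w1 ∈ W := W.add_mem hw1W (W.smul_mem δ (hWs t ht w1 hw1W))
  have h2s : ρ s (w1 + δ • ρ t w1) = ε • (w1 + δ • ρ t w1) := by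
    rw [map_add, map_smul, ← rm, hst, rm, h1e, map_smul, smul_add, smul_comm]
  generalize w1 + δ • ρ t w1 = w2 at h20 h2e hw2W h2s
  have hcw2 : ρ c w2 ∈ W := hWs c hc w2 hw2W
  -- the span
  set X := Submodule.span ℚ ({w2, ρ c w2, ρ y0 w2, ρ y0 (ρ c w2)} : Set M) with hX
  have m1 : w2 ∈ X := Submodule.subset_span (by simp)
  have m2 : ρ c w2 ∈ X := Submodule.subset_span (by simp)
  have m3 : ρ y0 w2 ∈ X := Submodule.subset_span (by simp)
  have m4 : ρ y0 (ρ c w2) ∈ X := Submodule.subset_span (by simp)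
  have hy0y0 : ∃ a b : ℚ, ∀ w ∈ W, ρ y0 (ρ y0 w) = a • w + b • ρ y0 w := by
    obtain ⟨a, b, hab⟩ := hYy0 (y0 * y0) (Y.mul_mem hy0 hy0)
    exact ⟨a, b, fun w hw => by rw [← rm]; exact hab w hw⟩
  have hXW : X ≤ W := by
    rw [hX, Submodule.span_le]
    intro v hv
    simp only [Set.mem_insert_iff, Set.mem_singleton_iff] at hv
    rcases hv with rfl | rfl | rfl | rfl
    · exact hw2W
    · exact hcw2
    · exact hWs y0 (hYΓ hy0) _ hw2W
    · exact hWs y0 (hYΓ hy0) _ hcw2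
  have hcy0 : ∀ w, ρ c (ρ y0 w) = ρ y0 (ρ c w) := fun w => by rw [← rm, ← rm, hYc y0 hy0]
  have hty0 : ∀ w, ρ t (ρ y0 w) = ρ y0 (ρ t w) := fun w => by rw [← rm, ← rm, hYt y0 hy0]
  have htcw2 : ρ t (ρ c w2) = δ • ρ c (ρ c w2) := by
    have e1 : t * c * t = c⁻¹ := eq_inv_of_mul_eq_one_left htc
    have e2 : t * c = c * c * t := by
      have e3 : c⁻¹ = c * c := inv_eq_of_mul_eq_one_left hc3
      calc t * c = t * c * (t * t) := by rw [ht2, mul_one]
        _ = (t * c * t) * t := by simp only [mul_assoc]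
        _ = c * c * t := by rw [e1, e3]
    rw [← rm, e2, rm, rm, h2e, map_smul, map_smul]
  have hsy0 : ∀ w ∈ W, ρ s (ρ y0 w) = σ • ρ y0 (ρ s w) := by
    intro w hw
    have e1 : s * y0 = y0⁻¹ * s := by
      rw [← sys y0 hy0]
      calc s * y0 = s * y0 * (s * s) := by rw [hs2, mul_one]
        _ = s * y0 * s * s := by simp only [mul_assoc]
    rw [← rm, e1, rm, hinv0 _ (hWs s hs w hw)]
  have hscw2 : ρ s (ρ c w2) = ε • ρ c w2 := by
    rw [← rm, hsc, rm, h2s, map_smul]
  have hXst : ∀ g ∈ Γ, ∀ w ∈ X, ρ g w ∈ X := by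
    intro g hg
    let S : Submonoid H :=
      { carrier := {g | ∀ w ∈ X, ρ g w ∈ X}
        one_mem' := fun w hw => by rw [r1]; exact hw
        mul_mem' := by
          intro a b ha hb w hw
          rw [rm]; exact ha _ (hb w hw) }
    apply hall S _ _ _ _ g hg
    · apply stab_span (ρ c)
      intro v hv
      simp only [Set.mem_insert_iff, Set.mem_singleton_iff] at hv
      rcases hv with rfl | rfl | rfl | rfl
      · exact m2
      · rw [hcd w2 hw2W]; exact X.add_mem (X.smul_mem _ m1) (X.smul_mem _ m2)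
      · rw [hcy0]; exact m4
      · rw [hcy0, hcd w2 hw2W, map_add, map_smul, map_smul]
        exact X.add_mem (X.smul_mem _ m3) (X.smul_mem _ m4)
    · apply stab_span (ρ t)
      intro v hv
      simp only [Set.mem_insert_iff, Set.mem_singleton_iff] at hv
      rcases hv with rfl | rfl | rfl | rfl
      · rw [h2e]; exact X.smul_mem _ m1
      · rw [htcw2, hcd w2 hw2W]
        exact X.smul_mem _ (X.add_mem (X.smul_mem _ m1) (X.smul_mem _ m2))
      · rw [hty0, h2e, map_smul]; exact X.smul_mem _ m3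
      · rw [hty0, htcw2, hcd w2 hw2W, map_smul, map_add, map_smul, map_smul]
        exact X.smul_mem _ (X.add_mem (X.smul_mem _ m3) (X.smul_mem _ m4))
    · apply stab_span (ρ s)
      intro v hv
      simp only [Set.mem_insert_iff, Set.mem_singleton_iff] at hv
      rcases hv with rfl | rfl | rfl | rfl
      · rw [h2s]; exact X.smul_mem _ m1
      · rw [hscw2]; exact X.smul_mem _ m2
      · rw [hsy0 w2 hw2W, h2s, map_smul]; exact X.smul_mem _ (X.smul_mem _ m3)
      · rw [hsy0 _ hcw2, hscw2, map_smul]; exact X.smul_mem _ (X.smul_mem _ m4)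
    · intro y hy
      obtain ⟨a, b, hab⟩ := hYy0 y hy
      obtain ⟨a', b', hab'⟩ := hy0y0
      apply stab_span (ρ y)
      intro v hv
      simp only [Set.mem_insert_iff, Set.mem_singleton_iff] at hv
      rcases hv with rfl | rfl | rfl | rfl
      · rw [hab _ hw2W]; exact X.add_mem (X.smul_mem _ m1) (X.smul_mem _ m3)
      · rw [hab _ hcw2]; exact X.add_mem (X.smul_mem _ m2) (X.smul_mem _ m4)
      · rw [hab _ (hWs y0 (hYΓ hy0) _ hw2W), hab' w2 hw2W]
        exact X.add_mem (X.smul_mem _ m3) (X.smul_mem _ (X.add_mem (X.smul_mem _ m1) (X.smul_mem _ m3)))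
      · rw [hab _ (hWs y0 (hYΓ hy0) _ hcw2), hab' _ hcw2]
        exact X.add_mem (X.smul_mem _ m4) (X.smul_mem _ (X.add_mem (X.smul_mem _ m2) (X.smul_mem _ m4)))
  have hXeq : X = W := hW.2.2 X hXW (by
    intro hb
    have : w2 ∈ (⊥ : Submodule ℚ M) := hb ▸ m1
    exact h20 ((Submodule.mem_bot ℚ).mp this)) hXst
  have hfw : f w2 ∈ X := hXeq ▸ hfW w2 hw2W
  obtain ⟨a, b, d, e, hfe⟩ : ∃ a b d e : ℚ,
      f w2 = a • w2 + b • ρ c w2 + (d • ρ y0 w2 + e • ρ y0 (ρ c w2)) := by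
    rw [hX] at hfw
    rw [Submodule.mem_span_insert] at hfw
    obtain ⟨a, z, hz, h1⟩ := hfw
    rw [Submodule.mem_span_insert] at hz
    obtain ⟨b, z', hz', h2⟩ := hz
    rw [Submodule.mem_span_insert] at hz'
    obtain ⟨d, z'', hz'', h3⟩ := hz'
    rw [Submodule.mem_span_singleton] at hz''
    obtain ⟨e, h4⟩ := hz''
    refine ⟨a, b, d, e, ?_⟩
    rw [h1, h2, h3, ← h4]; abel
  obtain ⟨a', b', hfe'⟩ : ∃ a' b' : ℚ, f w2 = a' • w2 + b' • ρ c w2 := by
    rcases hσ with hσ | hσ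
    · refine ⟨a, b, ?_⟩
      have e1 : ρ s (f w2) = ε • f w2 := by
        rw [← hf s hs w2 hw2W, h2s, map_smul]
      rw [hfe, map_add, map_add, map_add, map_smul, map_smul, map_smul, map_smul, h2s, hscw2,
        hsy0 w2 hw2W, hsy0 _ hcw2, h2s, hscw2, hσ, map_smul, map_smul] at e1
      have e2 : (2 * ε) • (d • ρ y0 w2 + e • ρ y0 (ρ c w2)) = 0 := by
        rw [← sub_eq_zero] at e1
        rw [← neg_eq_zero, ← e1]
        module
      have hε0 : (2 * ε) ≠ 0 := by
        intro h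
        have : ε = 0 := by linarith
        rw [this] at hε; norm_num at hε
      have e3 := (smul_eq_zero.mp e2).resolve_left hε0
      rw [hfe, e3, add_zero]
    · refine ⟨a + d, b + e, ?_⟩
      rw [hfe, hσ, r1, r1]
      module
  have e1 : ρ t (f w2) = δ • f w2 := by
    rw [← hf t ht w2 hw2W, h2e, map_smul]
  rw [hfe', map_add, map_smul, map_smul, h2e, htcw2] at e1
  have e2 : (δ * b') • ρ c (ρ c w2) = (δ * b') • ρ c w2 := by
    rw [← sub_eq_zero] at e1 ⊢
    rw [← e1]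
    module
  have hδ0 : δ ≠ 0 := by
    rintro rfl
    norm_num at hδ
  have e3 : b' • ρ c (ρ c w2) = b' • ρ c w2 := by
    rw [mul_smul, mul_smul] at e2
    exact smul_right_injective M hδ0 e2
  have e4 : b' • ρ c w2 = b' • w2 := by
    have h1 : ρ c⁻¹ (b' • ρ c (ρ c w2)) = b' • ρ c w2 := by
      rw [map_smul, ← rm, inv_mul_cancel, r1]
    have h2 : ρ c⁻¹ (b' • ρ c w2) = b' • w2 := by
      rw [map_smul, ← rm, inv_mul_cancel, r1]
    rw [← h1, e3, h2]
  refine ⟨a' + b', hW.scalar f hf (a' + b') hw2W ?_ h20⟩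
  rw [hfe', e4, add_smul]

end Pool.Agent.H247S
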