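import Pool.Agent.H247S.Grp

set_option autoImplicit false

namespace Pool.Agent.H247S

set_option linter.all false

open SemidirectProduct Hd

instance : Finite GG := by
  apply Finite.of_equiv (Multiplicative VV × Hd)
  exact SemidirectProduct.equivProd.symm

lemma phi_apply (h : Hd) (v : Multiplicative VV) :
    phi h v = Multiplicative.ofAdd (act h v.toAdd) := rfl

lemma VV_two (v : VV) : v + v = 0 := by
  ext i j
  rw [Matrix.add_apply, Matrix.zero_apply]
  exact CharTwo.add_self_eq_zero _

lemma A_two (a : Multiplicative VV) : a * a = 1 := by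
  have := VV_two a.toAdd
  exact this

/-- the sign of an element of `ZMod 2` -/
def sq (x : ZMod 2) : ℚ := if x = 0 then 1 else -1

lemma sq_add : ∀ x y : ZMod 2, sq (x + y) = sq x * sq y := by
  intro x y
  fin_cases x <;> fin_cases y <;> simp [sq] <;> rfl

/-- every character is given by a vector -/
lemma exists_vec (l : Multiplicative VV →* ℚ) (hl : ∀ a, l a = 1 ∨ l a = -1) :
    ∃ w : VV, ∀ v : VV, l (Multiplicative.ofAdd v) = sq (∑ i, ∑ j, w i j * v i j) := by
  classical
  let w : VV := fun i j => if l (Multiplicative.ofAdd (Matrix.single i j 1)) = 1 then 0 else 1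
  refine ⟨w, fun v => ?_⟩
  let L : Multiplicative VV →* ℚ :=
    { toFun := fun v => sq (∑ i, ∑ j, w i j * v.toAdd i j)
      map_one' := by simp [sq]
      map_mul' := fun x y => by
        rw [← sq_add]
        congr 1
        rw [← Finset.sum_add_distrib]
        refine Finset.sum_congr rfl fun i _ => ?_
        rw [← Finset.sum_add_distrib]
        refine Finset.sum_congr rfl fun j _ => ?_
        rw [toAdd_mul, Matrix.add_apply, mul_add] }
  have hsing : ∀ (i : Fin 2) (j : Fin 3) (x : ZMod 2),
      l (Multiplicative.ofAdd (Matrix.single i j x)) = L (Multiplicative.ofAdd (Matrix.single i j x)) := by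
    intro i j x
    have hx : x = 0 ∨ x = 1 := by
      revert x; decide
    rcases hx with rfl | rfl
    · rw [Matrix.single_zero, ofAdd_zero, map_one, map_one]
    · have e1 : L (Multiplicative.ofAdd (Matrix.single i j (1 : ZMod 2))) = sq (w i j) := by
        show sq (∑ i', ∑ j', w i' j' * (Matrix.single i j (1 : ZMod 2)) i' j') = sq (w i j)
        congr 1
        rw [Finset.sum_eq_single i, Finset.sum_eq_single j]
        · rw [Matrix.single_apply_same, mul_one]
        · intro b _ hb
          rw [Matrix.single_apply_of_col_ne]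
          · exact mul_zero _
          · exact hb.symm
        · simp
        · intro b _ hb
          apply Finset.sum_eq_zero
          intro c _
          rw [Matrix.single_apply_of_row_ne]
          · exact mul_zero _
          · exact hb.symm
        · simp
      rw [e1]
      simp only [w]
      rcases hl (Multiplicative.ofAdd (Matrix.single i j 1)) with h | h
      · rw [if_pos h, h]; rfl
      · rw [if_neg (by rw [h]; norm_num), h]; rfl
  have hv : v = ∑ i, ∑ j, Matrix.single i j (v i j) := Matrix.matrix_eq_sum_single v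
  have hall : ∀ (l' : Multiplicative VV →* ℚ), l' (Multiplicative.ofAdd v)
      = ∏ i, ∏ j, l' (Multiplicative.ofAdd (Matrix.single i j (v i j))) := by
    intro l'
    conv_lhs => rw [hv]
    rw [ofAdd_sum, map_prod]
    refine Finset.prod_congr rfl fun i _ => ?_
    rw [ofAdd_sum, map_prod]
  rw [hall l]
  simp only [hsing]
  rw [← hall L]
  rfl

/-- there is a reflection in every stabiliser -/
lemma exists_refl (l : Multiplicative VV →* ℚ) (hl : ∀ a, l a = 1 ∨ l a = -1) :
    ∃ s ∈ St phi l, s.e = true := by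
  obtain ⟨w, hw⟩ := exists_vec l hl
  obtain ⟨c, t, b, h⟩ := dual_fix (w 0 0) (w 0 1) (w 0 2) (w 1 0) (w 1 1) (w 1 2)
  have hw' : !![w 0 0, w 0 1, w 0 2; w 1 0, w 1 1, w 1 2] = w := by
    ext i j
    fin_cases i <;> fin_cases j <;> rfl
  rw [hw'] at h
  refine ⟨⟨c, t, 0, b, true⟩, ?_, rfl⟩
  intro a
  have key : ∀ v : VV, (∑ i, ∑ j, w i j * v i j) = Matrix.trace (w.transpose * v) := by
    intro v
    unfold Matrix.trace
    simp only [Matrix.diag_apply, Matrix.mul_apply, Matrix.transpose_apply]
    exact Finset.sum_comm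
  show l (Multiplicative.ofAdd (act ⟨c, t, 0, b, true⟩ a.toAdd)) = l (Multiplicative.ofAdd a.toAdd)
  rw [hw, hw, key, key]
  congr 1
  unfold act
  have h2 := congrArg Matrix.transpose h
  rw [Matrix.transpose_mul, Matrix.transpose_mul, Matrix.transpose_transpose] at h2
  have e1 : w.transpose * (PM c t * a.toAdd * (QM b true).transpose)
      = (w.transpose * PM c t * a.toAdd) * (QM b true).transpose := by
    simp only [Matrix.mul_assoc]
  show Matrix.trace (w.transpose * (PM c t * a.toAdd * (QM b true).transpose)) = _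
  rw [e1, Matrix.trace_mul_comm, ← Matrix.mul_assoc, ← Matrix.mul_assoc, Matrix.mul_assoc _ _ (PM c t),
    h2]

/-- elements of a proper stabiliser have no component of order three -/
lemma no_three (l : Multiplicative VV →* ℚ) (hl : ∀ a, l a = 1 ∨ l a = -1) (hl1 : l ≠ 1)
    (h : Hd) (hh : h ∈ St phi l) : h.t = true ∨ h.c = 0 := by
  by_contra hcon
  push Not at hcon
  obtain ⟨ht, hc⟩ := hcon
  have ht : h.t = false := by simpa using ht
  have h4 : h * h * (h * h) = ⟨h.c, false, 0, 0, false⟩ := by
    obtain ⟨c, t, a, b, e⟩ := h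
    simp only at ht
    subst ht
    simp only [Hd.mul_def, sg]
    have e3 : ∀ c : ZMod 3, c + c + (c + c) = c := by decide
    have e4 : ∀ a : ZMod 4, a + a + (a + a) = 0 := by decide
    cases e <;> simp [e3, e4]
  have hmem : (⟨h.c, false, 0, 0, false⟩ : Hd) ∈ St phi l := by
    rw [← h4]
    exact (St phi l).mul_mem ((St phi l).mul_mem hh hh) ((St phi l).mul_mem hh hh)
  apply hl1
  apply MonoidHom.ext
  intro a
  have e1 := hmem a
  have e2 := hmem (phi ⟨h.c, false, 0, 0, false⟩ a)
  have hsum : a * phi ⟨h.c, false, 0, 0, false⟩ a *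
      phi ⟨h.c, false, 0, 0, false⟩ (phi ⟨h.c, false, 0, 0, false⟩ a) = 1 := by
    show Multiplicative.ofAdd (a.toAdd + act ⟨h.c, false, 0, 0, false⟩ a.toAdd
      + act ⟨h.c, false, 0, 0, false⟩ (act ⟨h.c, false, 0, 0, false⟩ a.toAdd)) = 1
    unfold act
    simp only
    rw [QM_one, Matrix.transpose_one, Matrix.mul_one, Matrix.mul_one]
    have := PM_sum h.c hc
    have e5 : a.toAdd + PM h.c false * a.toAdd + PM h.c false * (PM h.c false * a.toAdd)
        = (1 + PM h.c false + PM h.c false * PM h.c false) * a.toAdd := by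
      rw [Matrix.add_mul, Matrix.add_mul, Matrix.one_mul, Matrix.mul_assoc]
    rw [e5, this, Matrix.zero_mul]
    rfl
  have e3 := congrArg l hsum
  rw [map_mul, map_mul, map_one, e2, e1] at e3
  rw [MonoidHom.one_apply]
  rcases hl a with h5 | h5
  · exact h5
  · rw [h5] at e3; norm_num at e3

/-- squares of elements without component of order three -/
lemma sq_one (h : Hd) (h1 : h.t = true ∨ h.c = 0) (h2 : h.e = true) : h * h = 1 := by
  obtain ⟨c, t, a, b, e⟩ := h
  simp only at h1 h2
  subst h2
  simp only [Hd.mul_def, Hd.one_def]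
  rcases h1 with rfl | rfl
  · simp [sg]
  · cases t <;> simp [sg]

lemma four_one (h : Hd) (h1 : h.t = true ∨ h.c = 0) : h * h * (h * h) = 1 := by
  obtain ⟨c, t, a, b, e⟩ := h
  simp only at h1
  simp only [Hd.mul_def, Hd.one_def, sg]
  have e4 : ∀ a : ZMod 4, a + a + (a + a) = 0 := by decide
  rcases h1 with rfl | rfl
  · cases e <;> simp [e4]
  · cases t <;> cases e <;> simp [e4]

lemma split_GG : IsSplit GG := by
  apply split_of
  intro M _ _ ρ hirr f hf
  refine scalar_of ρ A_two hirr ?_ f hf
  intro l hl W hW f hf hfW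
  by_cases hl1 : l = 1
  · -- the full group
    let Y : Subgroup Hd :=
      { carrier := {h | h.c = 0 ∧ h.t = false ∧ h.e = false}
        one_mem' := ⟨rfl, rfl, rfl⟩
        mul_mem' := by
          rintro ⟨c, t, a, b, e⟩ ⟨c', t', a', b', e'⟩ ⟨h1, h2, h3⟩ ⟨h4, h5, h6⟩
          simp only at h1 h2 h3 h4 h5 h6
          subst h1 h2 h3 h4 h5 h6
          simp [Hd.mul_def, sg]
        inv_mem' := by
          rintro ⟨c, t, a, b, e⟩ ⟨h1, h2, h3⟩
          simp only at h1 h2 h3
          subst h1 h2 h3
          simp [Hd.inv_def, sg] }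
    have hY : ∀ y : Hd, y ∈ Y → ∃ a b, y = ⟨0, false, a, b, false⟩ := by
      rintro ⟨c, t, a, b, e⟩ ⟨h1, h2, h3⟩
      simp only at h1 h2 h3
      subst h1 h2 h3
      exact ⟨a, b, rfl⟩
    have hall : ∀ h : Hd, h ∈ St phi l := by
      intro h a
      rw [hl1]; rfl
    refine lemT (ρ.comp inr) (St phi l) W hW Y (fun y _ => hall y) ⟨1, false, 0, 0, false⟩
      ⟨0, true, 0, 0, false⟩ ⟨0, false, 0, 0, true⟩ (hall _) (hall _) (hall _)
      (by decide) (by decide) (by decide) (by decide) (by decide) (by decide) ?_ ?_ ?_ ?_ ?_ f hf hfW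
    · intro y hy
      obtain ⟨a, b, rfl⟩ := hY y hy
      simp [Hd.mul_def, Hd.one_def, sg]
    · intro y hy
      obtain ⟨a, b, rfl⟩ := hY y hy
      exact four_one _ (Or.inr rfl)
    · intro y hy
      obtain ⟨a, b, rfl⟩ := hY y hy
      simp [Hd.mul_def, sg]
    · intro y hy
      obtain ⟨a, b, rfl⟩ := hY y hy
      simp [Hd.mul_def, sg]
    · rintro ⟨c, t, a, b, e⟩ _
      refine ⟨c.val, if t then 1 else 0, if e then 1 else 0, ⟨0, false, a, b, false⟩,
        ⟨rfl, rfl, rfl⟩, ?_⟩
      have hc' : ∀ c : ZMod 3, (⟨1, false, 0, 0, false⟩ : Hd) ^ c.val = ⟨c, false, 0, 0, false⟩ := by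
        decide +kernel
      have hc := hc' c
      rw [hc]
      cases t <;> cases e <;> simp [Hd.mul_def, Hd.one_def, sg]
  · obtain ⟨s, hs, hse⟩ := exists_refl l hl
    have h3 := fun h hh => no_three l hl hl1 h hh
    let Y : Subgroup Hd :=
      { carrier := {h | h ∈ St phi l ∧ h.e = false}
        one_mem' := ⟨(St phi l).one_mem, rfl⟩
        mul_mem' := by
          rintro x y ⟨hx, hx'⟩ ⟨hy, hy'⟩
          refine ⟨(St phi l).mul_mem hx hy, ?_⟩
          show xor x.e y.e = false
          rw [hx', hy']; rfl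
        inv_mem' := by
          rintro x ⟨hx, hx'⟩
          exact ⟨(St phi l).inv_mem hx, hx'⟩ }
    have hss : s * s = 1 := sq_one s (h3 s hs) hse
    refine lemT (ρ.comp inr) (St phi l) W hW Y (fun y hy => hy.1) 1 1 s (St phi l).one_mem
      (St phi l).one_mem hs hss (by simp) (by simp) (by simp) (by simp) (by simp) ?_ ?_
      (by simp) (by simp) ?_ f hf hfW
    · rintro y ⟨hy, hye⟩
      have h4 : s * y ∈ St phi l := (St phi l).mul_mem hs hy
      have h5 : (s * y).e = true := by
        show xor s.e y.e = true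
        rw [hse, hye]; rfl
      have := sq_one (s * y) (h3 _ h4) h5
      rw [← this]
      simp only [mul_assoc]
    · rintro y ⟨hy, hye⟩
      exact four_one y (h3 y hy)
    · intro g hg
      cases hge : g.e with
      | false => exact ⟨0, 0, 0, g, ⟨hg, hge⟩, by simp⟩
      | true =>
        refine ⟨0, 0, 1, g * s, ⟨(St phi l).mul_mem hg hs, ?_⟩, ?_⟩
        · show xor g.e s.e = false
          rw [hge, hse]; rfl
        · rw [pow_zero, pow_one, one_mul, one_mul, mul_assoc, hss, mul_one]

/-- the elements without component of order three -/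
def TT : Subgroup Hd where
  carrier := {h | h.c = 0}
  one_mem' := rfl
  mul_mem' := by
    rintro x y hx hy
    show x.c + sg x.t y.c = 0
    have hx : x.c = 0 := hx
    have hy : y.c = 0 := hy
    rw [hx, hy]
    cases x.t <;> simp [sg]
  inv_mem' := by
    intro x hx
    show - sg x.t x.c = 0
    have hx : x.c = 0 := hx
    rw [hx]
    cases x.t <;> simp [sg]

/-- the Sylow subgroup -/
def PP : Subgroup GG := TT.comap rightHom

lemma card_Hd : Nat.card Hd = 192 := by
  rw [Nat.card_eq_fintype_card]; decide +kernel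

lemma card_VV : Nat.card (Multiplicative VV) = 64 := by
  rw [Nat.card_congr Multiplicative.toAdd]
  show Nat.card (Fin 2 → Fin 3 → ZMod 2) = 64
  rw [Nat.card_eq_fintype_card]
  simp

lemma card_TT : Nat.card TT = 64 := by
  have : Nat.card TT = Nat.card {h : Hd // h.c = 0} := rfl
  rw [this, Nat.card_eq_fintype_card]; decide +kernel

lemma card_GG : Nat.card GG = 12288 := by
  rw [SemidirectProduct.card, card_VV, card_Hd]

lemma card_PP : Nat.card PP = 4096 := by
  have h1 : PP.index = TT.index := Subgroup.index_comap_of_surjective TT rightHom_surjective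
  have h2 := TT.card_mul_index
  rw [card_TT, card_Hd] at h2
  have h3 := PP.card_mul_index
  rw [h1, card_GG] at h3
  have h4 : TT.index = 3 := by omega
  rw [h4] at h3
  omega

lemma not_split_PP : ¬ IsSplit PP := by
  classical
  haveI : Fintype PP := Fintype.ofFinite PP
  let x : Hd := ⟨0, false, 1, 0, false⟩
  let g0 : GG := ⟨Multiplicative.ofAdd a0, x⟩
  have hg0 : g0 ∈ PP := rfl
  apply not_split (⟨g0, hg0⟩ : PP)
  rintro ⟨y, hy⟩ h
  have h1 : y * g0 = g0⁻¹ * y := by
    have := congrArg Subtype.val h
    have h2 : y * g0 * y⁻¹ = g0⁻¹ := this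
    rw [← h2]; group
  have h2 : g0⁻¹ = ⟨Multiplicative.ofAdd a0, x⁻¹⟩ := by
    rw [inv_eq_iff_mul_eq_one]
    apply SemidirectProduct.ext
    · show Multiplicative.ofAdd (a0 + act x a0) = 1
      have : act x a0 = a0 := by
        unfold act
        show PM 0 false * a0 * (QM 0 false).transpose = a0
        rw [PM_one, QM_one, Matrix.one_mul, Matrix.transpose_one, Matrix.mul_one]
      rw [this, VV_two]; rfl
    · exact mul_inv_cancel x
  rw [h2] at h1
  have hr : y.right * x = x⁻¹ * y.right := congrArg SemidirectProduct.right h1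
  have hl : y.left * phi y.right (Multiplicative.ofAdd a0)
      = Multiplicative.ofAdd a0 * phi x⁻¹ y.left := congrArg SemidirectProduct.left h1
  have hyc : y.right.c = 0 := hy
  have he : y.right.e = true := by
    by_contra hcon
    have he : y.right.e = false := by simpa using hcon
    have h3 := congrArg Hd.a hr
    simp only [Hd.mul_def, Hd.inv_def, he, x, sg] at h3
    simp only [Bool.false_eq_true, if_false] at h3
    rw [add_comm] at h3
    have h4 : (1 : ZMod 4) = -1 := add_right_cancel h3
    exact absurd h4 (by decide)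
  have h5 : phi x⁻¹ y.left = y.left := by
    show Multiplicative.ofAdd (act x⁻¹ y.left.toAdd) = y.left
    have : act x⁻¹ y.left.toAdd = y.left.toAdd := by
      unfold act
      have e1 : PM x⁻¹.c x⁻¹.t = 1 := by decide +kernel
      have e2 : QM x⁻¹.b x⁻¹.e = 1 := by decide +kernel
      rw [e1, e2, Matrix.one_mul, Matrix.transpose_one, Matrix.mul_one]
    rw [this]; rfl
  rw [h5, mul_comm] at hl
  have h6 : phi y.right (Multiplicative.ofAdd a0) = Multiplicative.ofAdd a0 := mul_right_cancel hl
  have h7 : act y.right a0 = a0 := h6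
  unfold act at h7
  rw [hyc, he] at h7
  exact no_fix _ _ h7

theorem final : ¬ (∀ (G : Type) [Group G] [Finite G],
      (∃ (ι : Type) (_ : Fintype ι) (n : ι → ℕ),
        Nonempty (MonoidAlgebra ℚ G ≃ₐ[ℚ] ((i : ι) → Matrix (Fin (n i)) (Fin (n i)) ℚ))) →
      ∀ P : Sylow 2 G,
        ∃ (ι : Type) (_ : Fintype ι) (n : ι → ℕ),
          Nonempty (MonoidAlgebra ℚ (↥(P : Subgroup G)) ≃ₐ[ℚ]
            ((i : ι) → Matrix (Fin (n i)) (Fin (n i)) ℚ))) := by
  intro h
  haveI : Fact (Nat.Prime 2) := ⟨Nat.prime_two⟩
  have hcard : Nat.card PP = 2 ^ (Nat.card GG).factorization 2 := by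
    rw [card_PP, card_GG]
    have : (12288 : ℕ) = 2 ^ 12 * 3 := by norm_num
    rw [this, Nat.factorization_mul (by norm_num) (by norm_num), Nat.factorization_pow]
    have h3 : Nat.factorization 3 2 = 0 := Nat.factorization_eq_zero_of_not_dvd (by norm_num)
    have h2 : Nat.factorization 2 2 = 1 := Nat.prime_two.factorization_self
    simp [h3, h2]
  let P : Sylow 2 GG := Sylow.ofCard PP hcard
  exact not_split_PP (h GG split_GG P)

end Pool.Agent.H247S
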