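import Mathlib

set_option autoImplicit false

namespace Pool.Agent.H247S

set_option linter.all false

variable {M : Type*} [AddCommGroup M] [Module ℚ M]

/-- `W` is irreducible under the operators `ρ g`, `g ∈ Γ` -/
def Irr {H : Type*} (ρ : H → (M →ₗ[ℚ] M)) (Γ : Set H) (W : Submodule ℚ M) : Prop :=
  W ≠ ⊥ ∧ (∀ g ∈ Γ, ∀ w ∈ W, ρ g w ∈ W) ∧
    ∀ W' : Submodule ℚ M, W' ≤ W → W' ≠ ⊥ → (∀ g ∈ Γ, ∀ w ∈ W', ρ g w ∈ W') → W' = W

lemma Irr.exists_ne {H : Type*} {ρ : H → (M →ₗ[ℚ] M)} {Γ : Set H} {W : Submodule ℚ M}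
    (h : Irr ρ Γ W) : ∃ w ∈ W, w ≠ 0 := by
  obtain ⟨w, hw, h0⟩ := Submodule.exists_mem_ne_zero_of_ne_bot h.1
  exact ⟨w, hw, h0⟩

/-- a stable predicate which is linear and holds for a nonzero vector holds everywhere -/
lemma Irr.all {H : Type*} {ρ : H → (M →ₗ[ℚ] M)} {Γ : Set H} {W : Submodule ℚ M}
    (h : Irr ρ Γ W) (K : Submodule ℚ M) (hK : ∀ g ∈ Γ, ∀ w ∈ W, w ∈ K → ρ g w ∈ K)
    {w₀ : M} (h1 : w₀ ∈ W) (h2 : w₀ ∈ K) (h0 : w₀ ≠ 0) : ∀ w ∈ W, w ∈ K := by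
  have := h.2.2 (W ⊓ K) inf_le_left (by
    intro hb
    have : w₀ ∈ (⊥ : Submodule ℚ M) := hb ▸ ⟨h1, h2⟩
    exact h0 ((Submodule.mem_bot ℚ).mp this)) (by
    intro g hg w hw
    exact ⟨h.2.1 g hg w hw.1, hK g hg w hw.1 hw.2⟩)
  intro w hw
  rw [← this] at hw
  exact hw.2

/-- a function commuting with the operators, which is a scalar on a nonzero vector -/
lemma Irr.scalar {H : Type*} {ρ : H → (M →ₗ[ℚ] M)} {Γ : Set H} {W : Submodule ℚ M}
    (h : Irr ρ Γ W) (f : M →ₗ[ℚ] M) (hf : ∀ g ∈ Γ, ∀ w ∈ W, f (ρ g w) = ρ g (f w)) (c : ℚ)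
    {w₀ : M} (h1 : w₀ ∈ W) (h2 : f w₀ = c • w₀) (h0 : w₀ ≠ 0) : ∀ w ∈ W, f w = c • w := by
  have := h.all (LinearMap.ker (f - c • LinearMap.id)) (by
    intro g hg w hw hw2
    rw [LinearMap.mem_ker, LinearMap.sub_apply, LinearMap.smul_apply, LinearMap.id_apply,
      sub_eq_zero] at hw2 ⊢
    rw [hf g hg w hw, hw2, map_smul]) h1 (by
    rw [LinearMap.mem_ker, LinearMap.sub_apply, LinearMap.smul_apply, LinearMap.id_apply,
      sub_eq_zero, h2]) h0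
  intro w hw
  have h3 := this w hw
  rwa [LinearMap.mem_ker, LinearMap.sub_apply, LinearMap.smul_apply, LinearMap.id_apply,
      sub_eq_zero] at h3

/-- a central involution acts as a sign -/
lemma Irr.sign {H : Type*} {ρ : H → (M →ₗ[ℚ] M)} {Γ : Set H} {W : Submodule ℚ M}
    (h : Irr ρ Γ W) (T : M →ₗ[ℚ] M) (hT : ∀ w ∈ W, T w ∈ W) (hT2 : ∀ w ∈ W, T (T w) = w)
    (hc : ∀ g ∈ Γ, ∀ w ∈ W, T (ρ g w) = ρ g (T w)) :
    (∀ w ∈ W, T w = w) ∨ (∀ w ∈ W, T w = - w) := by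
  obtain ⟨w, hw, h0⟩ := h.exists_ne
  by_cases h1 : w + T w = 0
  · right
    have h2 : T w = (-1 : ℚ) • w := by
      rw [neg_one_smul]
      exact (neg_eq_of_add_eq_zero_right h1).symm
    intro v hv
    have := h.scalar T hc (-1) hw h2 h0 v hv
    rwa [neg_one_smul] at this
  · left
    have h2 : T (w + T w) = (1 : ℚ) • (w + T w) := by
      rw [one_smul, map_add, hT2 w hw, add_comm]
    intro v hv
    have := h.scalar T hc 1 (W.add_mem hw (hT w hw)) h2 h1 v hv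
    rwa [one_smul] at this

/-- an eigenvector of an involution -/
lemma exists_eig (W : Submodule ℚ M) (T : M →ₗ[ℚ] M) (hT : ∀ w ∈ W, T w ∈ W)
    (hT2 : ∀ w ∈ W, T (T w) = w) {w : M} (hw : w ∈ W) (h0 : w ≠ 0) :
    ∃ ε : ℚ, ε * ε = 1 ∧ (w + ε • T w) ≠ 0 ∧ T (w + ε • T w) = ε • (w + ε • T w) := by
  by_cases h1 : w + T w = 0
  · refine ⟨-1, by norm_num, ?_, ?_⟩
    · have h2 : T w = - w := (neg_eq_of_add_eq_zero_right h1).symm
      rw [h2, neg_smul, one_smul, neg_neg]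
      intro h3
      have : (2 : ℚ) • w = 0 := by rw [two_smul]; exact h3
      exact h0 ((smul_eq_zero.mp this).resolve_left (by norm_num))
    · rw [map_add, map_smul, hT2 w hw, smul_add, smul_smul]
      norm_num
      abel
  · refine ⟨1, by norm_num, by rwa [one_smul], ?_⟩
    rw [one_smul, one_smul, map_add, hT2 w hw, add_comm]

end Pool.Agent.H247S
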