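import Pool.Agent.H247S.Clif

set_option autoImplicit false

namespace Pool.Agent.H247S

set_option linter.all false

open MonoidAlgebra

/-- the group algebra over `ℚ` is a product of matrix algebras over `ℚ` -/
def IsSplit (G : Type) [Group G] : Prop :=
  ∃ (ι : Type) (_ : Fintype ι) (n : ι → ℕ),
    Nonempty (MonoidAlgebra ℚ G ≃ₐ[ℚ] ((i : ι) → Matrix (Fin (n i)) (Fin (n i)) ℚ))

theorem split_of (G : Type) [Group G] [Finite G]
    (hE : ∀ (M : Type) [AddCommGroup M] [Module ℚ M] (ρ : G →* Module.End ℚ M),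
      Irr (fun g => ρ g) Set.univ ⊤ → ∀ f : M →ₗ[ℚ] M, (∀ g m, f (ρ g m) = ρ g (f m)) →
        ∃ q : ℚ, ∀ m, f m = q • m) : IsSplit G := by
  haveI : NeZero (Nat.card G : ℚ) := ⟨by exact_mod_cast Nat.card_pos.ne'⟩
  obtain ⟨n, S, d, hS, hd, ⟨e⟩⟩ :=
    IsSemisimpleRing.exists_algEquiv_pi_matrix_end_mulOpposite ℚ (MonoidAlgebra ℚ G)
  have key : ∀ i, Function.Bijective (Algebra.ofId ℚ (Module.End (MonoidAlgebra ℚ G) (S i))ᵐᵒᵖ) := by
    intro i
    haveI := hS i
    haveI : Nontrivial (S i) := IsSimpleModule.nontrivial (MonoidAlgebra ℚ G) (S i)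
    refine ⟨(algebraMap ℚ (Module.End (MonoidAlgebra ℚ G) (S i))ᵐᵒᵖ).injective, fun x => ?_⟩
    let ρ : G →* Module.End ℚ (S i) :=
      ((Algebra.lsmul ℚ ℚ (S i) : MonoidAlgebra ℚ G →ₐ[ℚ] Module.End ℚ (S i)) :
        MonoidAlgebra ℚ G →* Module.End ℚ (S i)).comp (MonoidAlgebra.of ℚ G)
    have hρ : ∀ g m, ρ g m = (MonoidAlgebra.of ℚ G g) • m := fun g m => rfl
    obtain ⟨q, hq⟩ := hE (S i) ρ (by
      refine ⟨?_, fun g _ w _ => Submodule.mem_top, ?_⟩
      · intro h
        obtain ⟨a, ha⟩ := exists_ne (0 : S i)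
        have : a ∈ (⊤ : Submodule ℚ (S i)) := Submodule.mem_top
        rw [h] at this
        exact ha ((Submodule.mem_bot ℚ).mp this)
      · intro W' _ hne hst
        have hall : ∀ (r : MonoidAlgebra ℚ G), ∀ w ∈ W', r • w ∈ W' := by
          intro r
          induction r using MonoidAlgebra.induction_linear with
          | zero => intro w _; rw [zero_smul]; exact W'.zero_mem
          | add x y hx hy => intro w hw; rw [add_smul]; exact W'.add_mem (hx w hw) (hy w hw)
          | single g q =>
            intro w hw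
            have h1 : (MonoidAlgebra.single g q : MonoidAlgebra ℚ G)
                = q • MonoidAlgebra.of ℚ G g := by
              rw [MonoidAlgebra.of_apply, MonoidAlgebra.smul_single, smul_eq_mul, mul_one]
            rw [h1, smul_assoc]
            exact W'.smul_mem q (hst g (Set.mem_univ g) w hw)
        let W'' : Submodule (MonoidAlgebra ℚ G) (S i) :=
          { carrier := W'
            zero_mem' := W'.zero_mem
            add_mem' := fun {a b} ha hb => W'.add_mem ha hb
            smul_mem' := fun r w hw => hall r w hw }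
        rcases eq_bot_or_eq_top W'' with h | h
        · exfalso
          apply hne
          rw [Submodule.eq_bot_iff]
          intro w hw
          have : w ∈ W'' := hw
          rw [h] at this
          exact (Submodule.mem_bot _).mp this
        · rw [eq_top_iff]
          intro w _
          have : w ∈ W'' := by rw [h]; exact Submodule.mem_top
          exact this) (x.unop.restrictScalars ℚ) (by
      intro g m
      rw [hρ, hρ]
      exact map_smul x.unop _ _)
    refine ⟨q, ?_⟩
    rw [Algebra.ofId_apply, MulOpposite.algebraMap_apply]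
    apply MulOpposite.unop_injective
    rw [MulOpposite.unop_op]
    apply LinearMap.ext
    intro m
    have h1 := hq m
    rw [Module.algebraMap_end_apply]
    exact h1.symm
  refine ⟨Fin n, inferInstance, d, ⟨e.trans (AlgEquiv.piCongrRight fun i =>
    AlgEquiv.mapMatrix (AlgEquiv.ofBijective _ (key i)).symm)⟩⟩

section nonsplit

variable {S : Type} [Group S] [Fintype S]

/-- the standard form -/
def bil (u v : MonoidAlgebra ℚ S) : ℚ := ∑ h, u.coeff h * v.coeff h

lemma bil_single_mul (y : S) (u v : MonoidAlgebra ℚ S) :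
    bil (single y 1 * u) v = bil u (single y⁻¹ 1 * v) := by
  unfold bil
  rw [← Equiv.sum_comp (Equiv.mulLeft y)]
  refine Finset.sum_congr rfl fun h _ => ?_
  rw [coeff_single_mul_apply, coeff_single_mul_apply]
  simp

lemma bil_sub_left (u u' v : MonoidAlgebra ℚ S) : bil (u - u') v = bil u v - bil u' v := by
  unfold bil
  rw [← Finset.sum_sub_distrib]
  refine Finset.sum_congr rfl fun h _ => ?_
  rw [coeff_sub, Finsupp.sub_apply, sub_mul]

lemma bil_sub_right (u v v' : MonoidAlgebra ℚ S) : bil u (v - v') = bil u v - bil u v' := by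
  unfold bil
  rw [← Finset.sum_sub_distrib]
  refine Finset.sum_congr rfl fun h _ => ?_
  rw [coeff_sub, Finsupp.sub_apply, mul_sub]

lemma bil_sum_left {ι : Type*} (s : Finset ι) (f : ι → MonoidAlgebra ℚ S) (v : MonoidAlgebra ℚ S) :
    bil (∑ i ∈ s, f i) v = ∑ i ∈ s, bil (f i) v := by
  classical
  induction s using Finset.induction with
  | empty => simp [bil]
  | insert a s ha ih =>
    rw [Finset.sum_insert ha, Finset.sum_insert ha, ← ih]
    unfold bil
    rw [← Finset.sum_add_distrib]
    refine Finset.sum_congr rfl fun h _ => ?_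
    rw [coeff_add, Finsupp.add_apply, add_mul]

lemma bil_comm (u v : MonoidAlgebra ℚ S) : bil u v = bil v u := by
  unfold bil
  exact Finset.sum_congr rfl fun h _ => mul_comm _ _

lemma bil_smul (c : ℚ) (u v : MonoidAlgebra ℚ S) : bil (c • u) v = c * bil u v := by
  unfold bil
  rw [Finset.mul_sum]
  refine Finset.sum_congr rfl fun h _ => ?_
  rw [coeff_smul_apply, smul_eq_mul, mul_assoc]

lemma bil_self_pos {u : MonoidAlgebra ℚ S} (hu : u ≠ 0) : 0 < bil u u := by
  unfold bil
  have : ∃ h, u.coeff h ≠ 0 := by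
    by_contra hcon
    push Not at hcon
    apply hu
    rw [← coeff_eq_zero]
    ext h
    exact hcon h
  obtain ⟨h, hh⟩ := this
  refine Finset.sum_pos' (fun i _ => mul_self_nonneg _) ⟨h, Finset.mem_univ h, ?_⟩
  exact mul_self_pos.mpr hh

/-- the difference of the two class sums -/
noncomputable def zz (g : S) : MonoidAlgebra ℚ S :=
  ∑ h : S, (single (h * g * h⁻¹) 1 - single (h * g⁻¹ * h⁻¹) 1)

lemma zz_skew (g : S) (u v : MonoidAlgebra ℚ S) : bil (zz g * u) v = - bil u (zz g * v) := by
  unfold zz
  rw [Finset.sum_mul, bil_sum_left, Finset.sum_mul, bil_comm u, bil_sum_left, ← Finset.sum_neg_distrib]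
  refine Finset.sum_congr rfl fun h _ => ?_
  rw [sub_mul, sub_mul, bil_sub_left, bil_sub_left, bil_single_mul, bil_single_mul,
    bil_comm _ u, bil_comm _ u]
  have e1 : (h * g * h⁻¹)⁻¹ = h * g⁻¹ * h⁻¹ := by group
  have e2 : (h * g⁻¹ * h⁻¹)⁻¹ = h * g * h⁻¹ := by group
  rw [e1, e2]
  ring

lemma zz_central (g : S) (r : MonoidAlgebra ℚ S) : zz g * r = r * zz g := by
  induction r using MonoidAlgebra.induction_linear with
  | zero => simp
  | add x y hx hy => rw [mul_add, add_mul, hx, hy]
  | single k q =>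
    unfold zz
    rw [Finset.sum_mul, Finset.mul_sum, ← Equiv.sum_comp (Equiv.mulLeft k)]
    refine Finset.sum_congr rfl fun h _ => ?_
    rw [sub_mul, mul_sub, single_mul_single, single_mul_single, single_mul_single,
      single_mul_single, mul_one, one_mul]
    simp only [Equiv.coe_mulLeft]
    congr 2 <;> group

theorem not_split (g : S) (hg : ∀ y : S, y * g * y⁻¹ ≠ g⁻¹) : ¬ IsSplit S := by
  classical
  rintro ⟨ι, _, n, ⟨e⟩⟩
  have hz0 : zz g ≠ 0 := by
    intro h0
    have h1 : (zz g).coeff g = 0 := by rw [h0]; rfl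
    unfold zz at h1
    rw [coeff_sum, Finsupp.finset_sum_apply] at h1
    have h2 : ∀ h : S, ((single (h * g * h⁻¹) (1 : ℚ) - single (h * g⁻¹ * h⁻¹) 1 :
        MonoidAlgebra ℚ S).coeff g) = if h * g * h⁻¹ = g then 1 else 0 := by
      intro h
      rw [coeff_sub, Finsupp.sub_apply, coeff_single_apply, coeff_single_apply]
      have h3 : h * g⁻¹ * h⁻¹ ≠ g := by
        intro h4
        apply hg h
        calc h * g * h⁻¹ = (h * g⁻¹ * h⁻¹)⁻¹ := by group
          _ = g⁻¹ := by rw [h4]
      rw [if_neg h3, sub_zero]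
    simp only [h2] at h1
    have h3 : (0 : ℚ) < ∑ h : S, if h * g * h⁻¹ = g then (1 : ℚ) else 0 := by
      refine Finset.sum_pos' (fun i _ => by split_ifs <;> norm_num) ⟨1, Finset.mem_univ _, ?_⟩
      rw [if_pos (by group)]
      norm_num
    rw [h1] at h3
    exact lt_irrefl _ h3
  have hez : e (zz g) ≠ 0 := fun h => hz0 (e.injective (by rw [h, map_zero]))
  obtain ⟨i, hi⟩ : ∃ i, e (zz g) i ≠ 0 := by
    by_contra hcon
    push Not at hcon
    exact hez (funext hcon)
  have hcen : e (zz g) i ∈ Subalgebra.center ℚ (Matrix (Fin (n i)) (Fin (n i)) ℚ) := by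
    rw [Subalgebra.mem_center_iff]
    intro b
    have h1 : e (zz g) * Pi.single i b = Pi.single i b * e (zz g) := by
      have h2 := zz_central g (e.symm (Pi.single i b))
      have h3 := congrArg e h2
      rwa [map_mul, map_mul, e.apply_symm_apply] at h3
    have h4 := congrFun h1 i
    simp only [Pi.mul_apply, Pi.single_eq_same] at h4
    exact h4.symm
  rw [Algebra.IsCentral.center_eq_bot, Algebra.mem_bot] at hcen
  obtain ⟨c, hc⟩ := hcen
  have hc0 : c ≠ 0 := by
    rintro rfl
    rw [map_zero] at hc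
    exact hi hc.symm
  set u := e.symm (Pi.single i (1 : Matrix (Fin (n i)) (Fin (n i)) ℚ)) with hu
  have hu0 : u ≠ 0 := by
    intro h
    have h1 : (Pi.single i (1 : Matrix (Fin (n i)) (Fin (n i)) ℚ) : (i : ι) → Matrix (Fin (n i)) (Fin (n i)) ℚ) = 0 := by
      have := congrArg e h
      rwa [hu, e.apply_symm_apply, map_zero] at this
    have h2 := congrFun h1 i
    rw [Pi.single_eq_same] at h2
    apply hi
    have h3 : e (zz g) i = e (zz g) i * 1 := (mul_one _).symm
    rw [h3, h2]
    exact mul_zero _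
  have hzu : zz g * u = c • u := by
    apply e.injective
    rw [map_mul, map_smul, hu, e.apply_symm_apply]
    funext j
    by_cases hj : j = i
    · subst hj
      rw [Pi.mul_apply, Pi.smul_apply, Pi.single_eq_same, mul_one, ← hc, Algebra.smul_def, mul_one]
    · rw [Pi.mul_apply, Pi.smul_apply, Pi.single_eq_of_ne hj]
      rw [smul_zero]; exact mul_zero _
  have h1 := zz_skew g u u
  rw [hzu, bil_comm u, bil_smul] at h1
  have h2 := bil_self_pos hu0
  have h3 : c * bil u u = 0 := by linarith
  rcases mul_eq_zero.mp h3 with h | h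
  · exact hc0 h
  · exact h2.ne' h

end nonsplit

end Pool.Agent.H247S
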